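import Pool.Agent.NH25.EL.Main
import Pool.Agent.NH25.FR.Cnt

/-!
# Logarithms and elliptic logarithms of several curves at almost all algebraic points near given points

We consider `k` variables `s_1, …, s_k`. For every variable `s_l` let `(Λ_{l,i}, θ_{l,i})`, `1 ≤ i ≤ n`, be different pairs of a
lattice with algebraic invariants `g₂`, `g₃` and an algebraic number `θ_{l,i}` which is not a root of `4 X ^ 3 - g₂ X - g₃`, and let
`c_{l,1}, …, c_{l,m}` be different algebraic numbers (`c_{l,j} = 0` is possible). The lattices are arbitrary: some of them may be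
equal, isogenous or have complex multiplication. So `θ_{l,i}` is the first coordinate of an algebraic point on an elliptic
curve which is not a point of order two. For algebraic numbers `s_l` near `0` let `p_{l,i}` be any elliptic logarithm with
`℘(p_{l,i}) = θ_{l,i} + s_l` (for the lattice `Λ_{l,i}`), and `t_{l,j}` any logarithm with `exp(t_{l,j}) = c_{l,j} + s_l`. Outside a small
set of tuples `s` the numbers `p_{l,i}`, `t_{l,j}` should be algebraically independent, by the conjecture on split semi-elliptic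
logarithms (if `n = 1` and all `Λ_{l,1}` are equal, or in the general form for several curves).

We say that there are no relations of degree `δ` over the number fields of degree at most `D` (`NoRelations`) if for all
choices of the elliptic logarithms `p_{l,i}` and of the logarithms `t_{l,j}`, all number fields `K` of degree at most `D` and all
complex numbers `w_1, …, w_q` which were given in advance (for instance periods and quasi-periods of the lattices, and `π`)
every polynomial over `K` of degree at most `δ` which vanishes at the numbers `w`, `p_{l,i}`, `ζ(p_{l,i})`, `t_{l,j}` is zero after the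
substitution of the numbers `w`. The field `K` may depend on `s`, so it may contain the numbers `s_l` and the coordinates of
the points.

**Theorem.** Let `μ_l ≥ 1` and `0 < η ≤ 1`. We consider tuples `β = (β_1, …, β_k)` of algebraic integers, `β_l` of degree at most
`μ_l` and with all conjugates bounded by `T`. Their number is at least `c₀ T ^ M`, with `M = ∑ μ_l (μ_l + 1) / 2`. For all `w`, `δ`,
`D` there are `c > 0` and `C` such that for all `T ≥ 1` and all integers `a_l` in `[1, T ^ (1 - η)]`, for all but `C T ^ (M - c)` of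
the tuples there are no relations of degree `δ` over the number fields of degree at most `D` at `s_l = a_l / β_l`. Moreover
there are functions `d(T) → ∞` and `ε(T) → 0` such that this holds with `D = δ = d(T)` for all but `ε(T) T ^ M` of the tuples.

In the starting library (`BoundedDegreeTuples`, `NumberFieldTuples`, `GrowingDegreeTuples`, …) the lattice has rational
invariants, there is one lattice, and `℘(p) = β + θ` tends to infinity, so `p` tends to the lattice. Here the points are
near arbitrary algebraic points of arbitrary curves over number fields, and several curves occur for the same variable.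

Proof. Near `0` the functions `∫ ds / √f_i`, `∫ (θ_i + s) ds / √f_i`, `f_i(s) = 4 (θ_i + s) ^ 3 - g₂ (θ_i + s) - g₃`, and
`log(1 + s / c_j)` are solutions of regular systems of G-functions over a number field. The general theorem over all
number fields of bounded degree (`Pool/Agent/NH25/UF`) shows that at all but few points all relations are values of
functional relations with constants. The functions, together with `log s`, are algebraically independent over `ℂ(s)`: by
Ostrowski's theorem it is enough that no linear combination is in `ℂ(s, √f_1, …, √f_n)`; by the linear independence of the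
square roots of different classes (`Pool/Agent/NH25/EL/Iso.lean`) this is reduced to equations
`f_i r' + f_i' r / 2 = a + b s` for rational functions `r`. Near the point with the logarithm `u_i`, `℘(u_i) = θ_i`, the elliptic
logarithm is `u_i + ∫ ds / √f_i` (`Pool/Agent/NH19/EL`, by helper19); all other branches follow from
`℘(p) = ℘(p')` if and only if `p ± p' ∈ Λ`.
-/

set_option autoImplicit false

open Filter
open scoped PeriodPair

namespace Pool.Agent.Results.MP_c9768e_nt.NearAlgebraicPoints

/-- The Weierstrass zeta function `ζ(z) = ∑ (1/(z-l) + 1/l + z/l²)`, the sum over the lattice (the summand of `l = 0` is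
`1/z`, since `1/0 = 0` in Lean). -/
noncomputable def zeta (L : PeriodPair) (z : ℂ) : ℂ := ∑' l : L.lattice, (1 / (z - l) + 1 / l + z / l ^ 2)

/-- `n` different pairs of a lattice with algebraic invariants and an algebraic number which is not a root of the cubic
polynomial, and `m` different algebraic numbers, for every one of the `k` variables -/
structure Configuration (k n m : ℕ) where
  /-- the lattices -/
  Λ : Fin k → Fin n → PeriodPair
  /-- the centres -/
  θ : Fin k → Fin n → ℂ
  /-- the shifts of the logarithms -/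
  c : Fin k → Fin m → ℂ
  algebraic_g₂ : ∀ l i, IsAlgebraic ℚ (Λ l i).g₂
  algebraic_g₃ : ∀ l i, IsAlgebraic ℚ (Λ l i).g₃
  algebraic_θ : ∀ l i, IsAlgebraic ℚ (θ l i)
  algebraic_c : ∀ l j, IsAlgebraic ℚ (c l j)
  /-- `θ` is not a root of the cubic polynomial -/
  ne : ∀ l i, 4 * θ l i ^ 3 - (Λ l i).g₂ * θ l i - (Λ l i).g₃ ≠ 0
  /-- the pairs which belong to the same variable are different -/
  injective : ∀ l, Function.Injective fun i => (θ l i, (Λ l i).g₂, (Λ l i).g₃)
  injective_c : ∀ l, Function.Injective (c l)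

/-- the indices of the numbers `p_{l,i}`, `ζ(p_{l,i})` and `t_{l,j}` -/
abbrev Index (k n m : ℕ) : Type := Fin k × ((Fin n × Fin 2) ⊕ Fin m)

/-- the numbers `p_{l,i}`, `ζ(p_{l,i})` and `t_{l,j}` -/
noncomputable def numbers {k n m : ℕ} (F : Configuration k n m) (p : Fin k → Fin n → ℂ) (t : Fin k → Fin m → ℂ)
    (v : Index k n m) : ℂ :=
  Sum.elim (fun e => (![p v.1 e.1, zeta (F.Λ v.1 e.1) (p v.1 e.1)] : Fin 2 → ℂ) e.2) (fun j => t v.1 j) v.2

/-- The numbers `c_{l,j} + s_l` are not zero, and whenever `℘(p_{l,i}) = θ_{l,i} + s_l` and `exp(t_{l,j}) = c_{l,j} + s_l`, every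
polynomial `P` of degree at most `δ` over a number field `K` of degree at most `D` which vanishes at the numbers `w` and
`p_{l,i}`, `ζ(p_{l,i})`, `t_{l,j}` is zero after the substitution of the numbers `w`. -/
def NoRelations {k n m q : ℕ} (F : Configuration k n m) (w : Fin q → ℂ) (D δ : ℕ) (s : Fin k → ℂ) : Prop :=
  (∀ l j, F.c l j + s l ≠ 0) ∧
  ∀ (p : Fin k → Fin n → ℂ) (t : Fin k → Fin m → ℂ),
    (∀ l i, p l i ∉ (F.Λ l i).lattice ∧ ℘[F.Λ l i] (p l i) = F.θ l i + s l) →
    (∀ l j, Complex.exp (t l j) = F.c l j + s l) →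
    ∀ K : IntermediateField ℚ ℂ, FiniteDimensional ℚ K → Module.finrank ℚ K ≤ D →
    ∀ P : MvPolynomial (Fin q ⊕ Index k n m) K, P.totalDegree ≤ δ →
      MvPolynomial.aeval (Sum.elim w (numbers F p t)) P = 0 →
      MvPolynomial.aeval (Sum.elim (fun i => MvPolynomial.C (w i)) MvPolynomial.X) P =
        (0 : MvPolynomial (Index k n m) ℂ)

/-- algebraic integers of degree at most `μ` all of whose conjugates have absolute value at most `T` -/
def House (μ T : ℕ) (ξ : ℂ) : Prop :=
  IsIntegral ℤ ξ ∧ (minpoly ℚ ξ).natDegree ≤ μ ∧ ∀ z : ℂ, Polynomial.aeval z (minpoly ℚ ξ) = 0 → ‖z‖ ≤ T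

/-- the tuples `β` -/
def Tuples {k : ℕ} (μ : Fin k → ℕ) (T : ℕ) : Set (Fin k → ℂ) := {β | ∀ l, House (μ l) T (β l)}

/-- the exponent `∑ μ_l (μ_l + 1) / 2` -/
def size {k : ℕ} (μ : Fin k → ℕ) : ℕ := ∑ l, μ l * (μ l + 1) / 2

/-- the tuples `β` for which there are relations at the point `s_l = a_l / β_l` -/
def Exceptional {k n m q : ℕ} (F : Configuration k n m) (w : Fin q → ℂ) (D δ : ℕ) (μ : Fin k → ℕ) (T : ℕ)
    (a : Fin k → ℕ) : Set (Fin k → ℂ) :=
  {β | β ∈ Tuples μ T ∧ ¬ NoRelations F w D δ fun l => (a l : ℂ) / β l}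

section proof

open Pool.Agent.NH25.EL Pool.Agent.NH25.FR

variable {k n m q : ℕ}

/-- the data -/
def cfg (F : Configuration k n m) : Cfg k n m :=
  ⟨F.Λ, F.θ, F.c, F.algebraic_g₂, F.algebraic_g₃, F.algebraic_θ, F.algebraic_c, F.ne, F.injective, F.injective_c⟩

lemma noRel {F : Configuration k n m} {w : Fin q → ℂ} {D δ : ℕ} {s : Fin k → ℂ}
    (h : NoRel (cfg F) w D δ s ∧ ∀ l j, (cfg F).c l j + s l ≠ 0) : NoRelations F w D δ s := by
  refine ⟨h.2, fun p t hp ht K hK hKD P hPd h0 => ?_⟩
  have h1 := h.1 p t hp ht K hK hKD (P.map (algebraMap K ℂ))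
    ((Finset.sup_mono (MvPolynomial.support_map_subset _ _)).trans hPd) (fun e => by
      rw [MvPolynomial.coeff_map]
      exact (P.coeff e).2) (by
      rw [← MvPolynomial.aeval_eq_eval, MvPolynomial.aeval_map_algebraMap]
      exact h0)
  unfold sp at h1
  rw [MvPolynomial.aeval_map_algebraMap] at h1
  exact h1

end proof

/-- **The theorem.** -/
theorem result :
    -- the number of the tuples
    (∀ (k : ℕ) (μ : Fin k → ℕ), (∀ l, 1 ≤ μ l) → ∃ c₀ : ℝ, 0 < c₀ ∧ ∀ T : ℕ, 1 ≤ T → (Tuples μ T).Finite ∧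
      c₀ * (T : ℝ) ^ size μ ≤ ((Tuples μ T).ncard : ℝ)) ∧
    -- almost all tuples
    (∀ (k n m q : ℕ) (F : Configuration k n m) (w : Fin q → ℂ) (μ : Fin k → ℕ) (η : ℝ), 1 ≤ k → (∀ l, 1 ≤ μ l) →
      0 < η → η ≤ 1 →
      (∀ δ D : ℕ, ∃ c C : ℝ, 0 < c ∧ ∀ T : ℕ, 1 ≤ T →
        ∀ a : Fin k → ℕ, (∀ l, 1 ≤ a l ∧ (a l : ℝ) ≤ (T : ℝ) ^ (1 - η)) →
        ((Exceptional F w D δ μ T a).ncard : ℝ) ≤ C * (T : ℝ) ^ ((size μ : ℝ) - c)) ∧
      (∃ (d : ℕ → ℕ) (ε : ℕ → ℝ), Tendsto d atTop atTop ∧ Tendsto ε atTop (nhds 0) ∧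
        ∀ T : ℕ, 1 ≤ T → ∀ a : Fin k → ℕ, (∀ l, 1 ≤ a l ∧ (a l : ℝ) ≤ (T : ℝ) ^ (1 - η)) →
        ((Exceptional F w (d T) (d T) μ T a).ncard : ℝ) ≤ ε T * (T : ℝ) ^ size μ)) := by
  refine ⟨fun k μ hμ => Pool.Agent.NH25.FR.many_tuples μ hμ, fun k n m q F w μ η hk hμ hη hη1 => ?_⟩
  obtain ⟨L, i1, i2, i3, N, H, κ₂, i4, P, ρ, hρ, hH, ⟨R⟩, hrel⟩ := Pool.Agent.NH25.EL.relE (cfg F) hk w
  have hmain : ∀ δ D : ℕ, ∃ c C : ℝ, 0 < c ∧ ∀ T : ℕ, 1 ≤ T →
        ∀ a : Fin k → ℕ, (∀ l, 1 ≤ a l ∧ (a l : ℝ) ≤ (T : ℝ) ^ (1 - η)) →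
        ((Exceptional F w D δ μ T a).ncard : ℝ) ≤ C * (T : ℝ) ^ ((size μ : ℝ) - c) := fun δ D =>
    Pool.Agent.NH25.FR.cnt hρ hH R (fun D δ s => NoRelations F w D δ s) id
      (fun r hr hrρ D δ s hs hP => noRel (hrel r hr hrρ D δ s hs hP)) μ hη hη1 δ D
  exact ⟨hmain, Pool.Agent.NH25.FR.growing (fun T (a : Fin k → ℕ) => ∀ l, 1 ≤ a l ∧ (a l : ℝ) ≤ (T : ℝ) ^ (1 - η))
    (fun D T a => ((Exceptional F w D D μ T a).ncard : ℝ)) (size μ) fun D => hmain D D⟩

end Pool.Agent.Results.MP_c9768e_nt.NearAlgebraicPoints
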