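import Pool.Agent.NH25.LG.Final
import Pool.Agent.NH25.FR.Cnt

/-!
# Periods, elliptic logarithms and logarithms of almost all curves over number fields

We consider `k` variables. For every variable `l` let `t⁰_l` be an algebraic number, not `0` or `1`, let `x_{l,1}, …, x_{l,n}` be
different algebraic numbers, not in `{0, 1, t⁰_l}`, and let `d_{l,1}, …, d_{l,m}` be different algebraic numbers
(`d_{l,j} = -t⁰_l` is possible). For algebraic numbers `t_l` near `t⁰_l` let `Λ_l` be the lattice of the curve
`E_l : y² = x (x - 1) (x - t_l)`: the functions `x = ℘ + (1 + t_l) / 3` and `y = ℘' / 2` parametrise the curve. Let `(ω_{l,1}, ω_{l,2})` be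
any basis of `Λ_l`, let `p_{l,i}` be any elliptic logarithm of a point of `E_l` with the first coordinate `x_{l,i}`, and `b_{l,j}` any
logarithm with `exp(b_{l,j}) = d_{l,j} + t_l`. The half periods `ω_{l,1} / 2`, `ω_{l,2} / 2` are elliptic logarithms of the points of order two,
so for `k = 1` all these numbers are logarithms as in the conjecture on split semi-elliptic logarithms, and the conjecture says
that they are algebraically independent if they are linearly independent (over `ℚ`, without complex multiplication, for the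
elliptic logarithms, and for the other logarithms).

We say that there are no relations of degree `δ` over the number fields of degree at most `D` (`NoRelations`) if for all
choices of the bases, of the elliptic logarithms and of the logarithms, all number fields `K` of degree at most `D` and all
complex numbers `w_1, …, w_q` which were given in advance (for instance `π` and logarithms of fixed algebraic numbers)
every polynomial over `K` of degree at most `δ` which vanishes at the numbers `w`, `ω_{l,1}`, `ω_{l,2}`, `p_{l,i}`, `b_{l,j}` is zero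
after the substitution of the numbers `w`. The field `K` may depend on the `t_l`, so it may contain them and the coordinates
of the points.

**Theorem.** Let `μ_l ≥ 1` and `0 < η ≤ 1`. We consider tuples `β = (β_1, …, β_k)` of algebraic integers, `β_l` of degree at most
`μ_l` and with all conjugates bounded by `T`. Their number is at least `c₀ T ^ M`, with `M = ∑ μ_l (μ_l + 1) / 2`. For all `w`, `δ`,
`D` there are `c > 0` and `C` such that for all `T ≥ 1` and all integers `a_l` in `[1, T ^ (1 - η)]`, for all but `C T ^ (M - c)` of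
the tuples there are no relations of degree `δ` over the number fields of degree at most `D` at `t_l = t⁰_l + a_l / β_l`. Moreover
there are functions `d(T) → ∞` and `ε(T) → 0` such that this holds with `D = δ = d(T)` for all but `ε(T) T ^ M` of the tuples.

In the starting library and in `NearAlgebraicPoints` the lattices are fixed and the points vary. Here the lattices vary, and
their periods are among the numbers.

Proof. Put `t = t⁰ + s`. Near `s = 0` the functions `p`, `q = -ζ(p)` (up to an algebraic function) satisfy linear differential equations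
of first order in `s` (the derivative of elliptic logarithms with respect to the modulus, `Pool/Agent/NH19/LF`, by helper19).
With respect to the differentials `(x - e) dx / y`, `e = 0, 1`, this is the system `K_0' = (K_1 + R) / (2 (s - a₁))`,
`K_1' = (K_0 + R) / (2 (s - a₀))`, `R' = R / (2 (c - s))` of G-functions (`Pool/Agent/NH25/LG/Fam.lean`; the homogeneous system is a
Jordan-Pochhammer system). The general theorem over all number fields of bounded degree (`Pool/Agent/NH25/UF`) shows that
at all but few points all relations are values of functional relations with constants. The functions `ω_1`, `ω_2`, `p_i`,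
`log(d_j + t)` are algebraically independent over `ℂ(t)` (`Pool/Agent/Y776/Fam`, with the independence of the points modulo torsion,
which follows from the different branch points of `√(x_i - t)`). The lattice is determined by the invariants (`Pool/Agent/NH19/LF`); all
other bases and elliptic logarithms are obtained with an integral unimodular matrix and from `℘(p) = ℘(p')` if and only if
`p ± p' ∈ Λ`.
-/

set_option autoImplicit false

open Filter
open scoped PeriodPair

namespace Pool.Agent.Results.MP_c9768e_nt.VaryingLattices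

/-- the centres `t⁰_l`, the first coordinates `x_{l,i}` and the shifts `d_{l,j}` of the logarithms -/
structure Configuration (k n m : ℕ) where
  /-- the centres -/
  t₀ : Fin k → ℂ
  /-- the first coordinates of the points -/
  x : Fin k → Fin n → ℂ
  /-- the shifts of the logarithms -/
  d : Fin k → Fin m → ℂ
  algebraic_t₀ : ∀ l, IsAlgebraic ℚ (t₀ l)
  algebraic_x : ∀ l i, IsAlgebraic ℚ (x l i)
  algebraic_d : ∀ l j, IsAlgebraic ℚ (d l j)
  t₀_ne : ∀ l, t₀ l ≠ 0 ∧ t₀ l ≠ 1
  x_ne : ∀ l i, x l i ≠ 0 ∧ x l i ≠ 1 ∧ x l i ≠ t₀ l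
  injective_x : ∀ l, Function.Injective (x l)
  injective_d : ∀ l, Function.Injective (d l)

/-- The lattice `Λ` belongs to the curve `y² = x (x - 1) (x - t)`, that is, `x = ℘ + (1 + t) / 3` and `y = ℘' / 2` satisfy this
equation. -/
def IsLatticeOf (Λ : PeriodPair) (t : ℂ) : Prop :=
  ∀ x : ℂ, 4 * (x - (1 + t) / 3) ^ 3 - Λ.g₂ * (x - (1 + t) / 3) - Λ.g₃ = 4 * (x * (x - 1) * (x - t))

/-- the indices of the numbers `ω_{l,1}`, `ω_{l,2}`, `p_{l,i}` and `b_{l,j}` -/
abbrev Index (k n m : ℕ) : Type := Fin k × (Fin 2 ⊕ (Fin n ⊕ Fin m))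

/-- the numbers `ω_{l,1}`, `ω_{l,2}`, `p_{l,i}` and `b_{l,j}` -/
noncomputable def numbers {k n m : ℕ} (Λ : Fin k → PeriodPair) (p : Fin k → Fin n → ℂ) (b : Fin k → Fin m → ℂ)
    (v : Index k n m) : ℂ :=
  Sum.elim ![(Λ v.1).ω₁, (Λ v.1).ω₂] (Sum.elim (p v.1) (b v.1)) v.2

/-- The curves are smooth, the points are not of order two, the numbers `d_{l,j} + t_l` are not zero, and whenever `Λ_l` is a
lattice (with a basis) of the curve `y² = x (x - 1) (x - t_l)`, `℘(p_{l,i}) + (1 + t_l) / 3 = x_{l,i}` and `exp(b_{l,j}) = d_{l,j} + t_l`, every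
polynomial `P` of degree at most `δ` over a number field `K` of degree at most `D` which vanishes at the numbers `w` and
`ω_{l,1}`, `ω_{l,2}`, `p_{l,i}`, `b_{l,j}` is zero after the substitution of the numbers `w`. -/
def NoRelations {k n m q : ℕ} (F : Configuration k n m) (w : Fin q → ℂ) (D δ : ℕ) (t : Fin k → ℂ) : Prop :=
  (∀ l, t l ≠ 0 ∧ t l ≠ 1) ∧ (∀ l i, t l ≠ F.x l i) ∧ (∀ l j, F.d l j + t l ≠ 0) ∧
  ∀ (Λ : Fin k → PeriodPair) (p : Fin k → Fin n → ℂ) (b : Fin k → Fin m → ℂ),
    (∀ l, IsLatticeOf (Λ l) (t l)) →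
    (∀ l i, p l i ∉ (Λ l).lattice ∧ ℘[Λ l] (p l i) + (1 + t l) / 3 = F.x l i) →
    (∀ l j, Complex.exp (b l j) = F.d l j + t l) →
    ∀ K : IntermediateField ℚ ℂ, FiniteDimensional ℚ K → Module.finrank ℚ K ≤ D →
    ∀ P : MvPolynomial (Fin q ⊕ Index k n m) K, P.totalDegree ≤ δ →
      MvPolynomial.aeval (Sum.elim w (numbers Λ p b)) P = 0 →
      MvPolynomial.aeval (Sum.elim (fun i => MvPolynomial.C (w i)) MvPolynomial.X) P =
        (0 : MvPolynomial (Index k n m) ℂ)

/-- algebraic integers of degree at most `μ` all of whose conjugates have absolute value at most `T` -/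
def House (μ T : ℕ) (ξ : ℂ) : Prop :=
  IsIntegral ℤ ξ ∧ (minpoly ℚ ξ).natDegree ≤ μ ∧ ∀ z : ℂ, Polynomial.aeval z (minpoly ℚ ξ) = 0 → ‖z‖ ≤ T

/-- the tuples `β` -/
def Tuples {k : ℕ} (μ : Fin k → ℕ) (T : ℕ) : Set (Fin k → ℂ) := {β | ∀ l, House (μ l) T (β l)}

/-- the exponent `∑ μ_l (μ_l + 1) / 2` -/
def size {k : ℕ} (μ : Fin k → ℕ) : ℕ := ∑ l, μ l * (μ l + 1) / 2

/-- the tuples `β` for which there are relations at the point `t_l = t⁰_l + a_l / β_l` -/
def Exceptional {k n m q : ℕ} (F : Configuration k n m) (w : Fin q → ℂ) (D δ : ℕ) (μ : Fin k → ℕ) (T : ℕ)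
    (a : Fin k → ℕ) : Set (Fin k → ℂ) :=
  {β | β ∈ Tuples μ T ∧ ¬ NoRelations F w D δ fun l => F.t₀ l + (a l : ℂ) / β l}

section proof

open Pool.Agent.NH25.LG Pool.Agent.NH25.FR

variable {k n m q : ℕ}

/-- the data -/
noncomputable def dat (F : Configuration k n m) : Dat k n m where
  a := fun l => ![-F.t₀ l, 1 - F.t₀ l]
  c := fun l i => F.x l i - F.t₀ l
  d := fun l j => F.d l j + F.t₀ l
  alga := fun l j => by
    fin_cases j
    · exact (F.algebraic_t₀ l).neg
    · exact (isAlgebraic_one).sub (F.algebraic_t₀ l)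
  algc := fun l i => (F.algebraic_x l i).sub (F.algebraic_t₀ l)
  algd := fun l j => (F.algebraic_d l j).add (F.algebraic_t₀ l)
  a0 := fun l j => by
    fin_cases j
    · exact neg_ne_zero.2 (F.t₀_ne l).1
    · exact sub_ne_zero.2 (F.t₀_ne l).2.symm
  a01 := fun l h => by
    simp only [Matrix.cons_val_zero, Matrix.cons_val_one, Matrix.cons_val_fin_one] at h
    have : (0 : ℂ) = 1 := by linear_combination h
    exact zero_ne_one this
  c0 := fun l i => sub_ne_zero.2 (F.x_ne l i).2.2
  ca := fun l i j h => by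
    fin_cases j
    · simp only [Fin.zero_eta, Fin.isValue, Matrix.cons_val_zero] at h
      exact (F.x_ne l i).1 (by linear_combination h)
    · simp only [Fin.mk_one, Fin.isValue, Matrix.cons_val_one, Matrix.cons_val_fin_one] at h
      exact (F.x_ne l i).2.1 (by linear_combination h)
  injc := fun l i i' h => F.injective_x l (sub_left_injective h)
  injd := fun l i i' h => F.injective_d l (add_left_injective _ h)

lemma noRel {F : Configuration k n m} {w : Fin q → ℂ} {D δ : ℕ} {s : Fin k → ℂ}
    (h : NoRel (dat F) w D δ s ∧ (∀ l j, s l ≠ (dat F).a l j) ∧ (∀ l i, s l ≠ (dat F).c l i) ∧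
      ∀ l j, (dat F).d l j + s l ≠ 0) : NoRelations F w D δ fun l => F.t₀ l + s l := by
  obtain ⟨h1, h2, h3, h4⟩ := h
  refine ⟨fun l => ⟨fun h => ?_, fun h => ?_⟩, fun l i h => ?_, fun l j h => ?_, fun Λ p b hΛ hp hb K hK hKD P hPd h0 => ?_⟩
  · exact h2 l 0 (by
      simp only [dat, Matrix.cons_val_zero]
      linear_combination h)
  · exact h2 l 1 (by
      simp only [dat, Matrix.cons_val_one, Matrix.cons_val_fin_one]
      linear_combination h)
  · exact h3 l i (by
      simp only [dat]
      linear_combination h)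
  · exact h4 l j (by
      simp only [dat]
      linear_combination h)
  · have h5 := h1 Λ p b (fun l => by
      have e0 := hΛ l ((1 + (F.t₀ l + s l)) / 3)
      have e1 := hΛ l ((1 + (F.t₀ l + s l)) / 3 + 1)
      have e2 : (Λ l).g₃ = -4 * (((1 + (F.t₀ l + s l)) / 3) * ((1 + (F.t₀ l + s l)) / 3 - 1) *
          ((1 + (F.t₀ l + s l)) / 3 - (F.t₀ l + s l))) := by linear_combination -e0
      have e3 : (Λ l).g₂ = 4 - (Λ l).g₃ - 4 * (((1 + (F.t₀ l + s l)) / 3 + 1) * ((1 + (F.t₀ l + s l)) / 3 + 1 - 1) *
          ((1 + (F.t₀ l + s l)) / 3 + 1 - (F.t₀ l + s l))) := by linear_combination -e1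
      constructor
      · rw [e3, e2]
        simp only [dat, Matrix.cons_val_zero, Matrix.cons_val_one, Matrix.cons_val_fin_one]
        unfold G2 sg
        ring
      · rw [e2]
        simp only [dat, Matrix.cons_val_zero, Matrix.cons_val_one, Matrix.cons_val_fin_one]
        unfold G3 sg
        ring) (fun l i => ⟨(hp l i).1, by
        have h6 := (hp l i).2
        simp only [dat, Matrix.cons_val_zero, Matrix.cons_val_one, Matrix.cons_val_fin_one]
        unfold sg
        linear_combination h6⟩) (fun l j => by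
        have h6 := hb l j
        rw [h6]
        simp only [dat]
        ring) K hK hKD (P.map (algebraMap K ℂ))
      ((Finset.sup_mono (MvPolynomial.support_map_subset _ _)).trans hPd) (fun e => by
        rw [MvPolynomial.coeff_map]
        exact (P.coeff e).2) (by
        rw [← MvPolynomial.aeval_eq_eval, MvPolynomial.aeval_map_algebraMap]
        exact h0)
    unfold sp at h5
    rw [MvPolynomial.aeval_map_algebraMap] at h5
    exact h5

end proof

/-- **The theorem.** -/
theorem result :
    -- the number of the tuples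
    (∀ (k : ℕ) (μ : Fin k → ℕ), (∀ l, 1 ≤ μ l) → ∃ c₀ : ℝ, 0 < c₀ ∧ ∀ T : ℕ, 1 ≤ T → (Tuples μ T).Finite ∧
      c₀ * (T : ℝ) ^ size μ ≤ ((Tuples μ T).ncard : ℝ)) ∧
    -- almost all tuples
    (∀ (k n m q : ℕ) (F : Configuration k n m) (w : Fin q → ℂ) (μ : Fin k → ℕ) (η : ℝ), 1 ≤ k → (∀ l, 1 ≤ μ l) →
      0 < η → η ≤ 1 →
      (∀ δ D : ℕ, ∃ c C : ℝ, 0 < c ∧ ∀ T : ℕ, 1 ≤ T →
        ∀ a : Fin k → ℕ, (∀ l, 1 ≤ a l ∧ (a l : ℝ) ≤ (T : ℝ) ^ (1 - η)) →
        ((Exceptional F w D δ μ T a).ncard : ℝ) ≤ C * (T : ℝ) ^ ((size μ : ℝ) - c)) ∧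
      (∃ (d : ℕ → ℕ) (ε : ℕ → ℝ), Tendsto d atTop atTop ∧ Tendsto ε atTop (nhds 0) ∧
        ∀ T : ℕ, 1 ≤ T → ∀ a : Fin k → ℕ, (∀ l, 1 ≤ a l ∧ (a l : ℝ) ≤ (T : ℝ) ^ (1 - η)) →
        ((Exceptional F w (d T) (d T) μ T a).ncard : ℝ) ≤ ε T * (T : ℝ) ^ size μ)) := by
  refine ⟨fun k μ hμ => Pool.Agent.NH25.FR.many_tuples μ hμ, fun k n m q F w μ η hk hμ hη hη1 => ?_⟩
  obtain ⟨L, i1, i2, i3, N, H, κ₂, i4, P, ρ, hρ, hH, ⟨R⟩, hrel⟩ := Pool.Agent.NH25.LG.relG (dat F) hk w
  have hmain : ∀ δ D : ℕ, ∃ c C : ℝ, 0 < c ∧ ∀ T : ℕ, 1 ≤ T →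
        ∀ a : Fin k → ℕ, (∀ l, 1 ≤ a l ∧ (a l : ℝ) ≤ (T : ℝ) ^ (1 - η)) →
        ((Exceptional F w D δ μ T a).ncard : ℝ) ≤ C * (T : ℝ) ^ ((size μ : ℝ) - c) := fun δ D =>
    Pool.Agent.NH25.FR.cnt hρ hH R (fun D δ s => NoRelations F w D δ fun l => F.t₀ l + s l) id
      (fun r hr hrρ D δ s hs hP => noRel (hrel r hr hrρ D δ s hs hP)) μ hη hη1 δ D
  exact ⟨hmain, Pool.Agent.NH25.FR.growing (fun T (a : Fin k → ℕ) => ∀ l, 1 ≤ a l ∧ (a l : ℝ) ≤ (T : ℝ) ^ (1 - η))
    (fun D T a => ((Exceptional F w D D μ T a).ncard : ℝ)) (size μ) fun D => hmain D D⟩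

end Pool.Agent.Results.MP_c9768e_nt.VaryingLattices
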