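import Pool.Agent.NH25.EL.Main
import Pool.Agent.NH25.FR.Cnt

/-!
# Logarithms and elliptic logarithms of several curves: short windows near arbitrary algebraic points

We consider `k` variables `s_1, …, s_k`. For every variable `s_l` let `(Λ_{l,i}, θ_{l,i})`, `1 ≤ i ≤ n`, be different pairs of a
lattice with algebraic invariants `g₂`, `g₃` and an algebraic number `θ_{l,i}` which is not a root of `4 X ^ 3 - g₂ X - g₃`, and let
`c_{l,1}, …, c_{l,m}` be different algebraic numbers (`c_{l,j} = 0` is possible). The lattices are arbitrary: some of them may be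
equal, isogenous or have complex multiplication. For algebraic numbers `s_l` near `0` let `p_{l,i}` be any elliptic logarithm with
`℘(p_{l,i}) = θ_{l,i} + s_l` (for the lattice `Λ_{l,i}`), and `t_{l,j}` any logarithm with `exp(t_{l,j}) = c_{l,j} + s_l`.

We say that there are no relations of degree `δ` over the number fields of degree at most `D` (`NoRelations`) if for all
choices of the elliptic logarithms `p_{l,i}` and of the logarithms `t_{l,j}`, all number fields `K` of degree at most `D` and all
complex numbers `w_1, …, w_q` which were given in advance (for instance periods and quasi-periods of the lattices, and `π`)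
every polynomial over `K` of degree at most `δ` which vanishes at the numbers `w`, `p_{l,i}`, `ζ(p_{l,i})`, `t_{l,j}` is zero after the
substitution of the numbers `w`. The field `K` may depend on `s`.

**Theorem.** For all `w`, `δ`, `D`, `m`, `A` there are `M` and `E` with the following property. Let `ξ_1, …, ξ_k` be algebraic
numbers, `ξ_l` a root of a nonzero integral polynomial of degree at most `m` with coefficients of size at most `|ξ_l| ^ A`, and
let `H_1, …, H_k` be natural numbers with `(H_l + 2) ^ E ≤ |ξ_l|`. We consider the points `s_l = 1 / (ξ_l + g_l)` for integers `g_l` with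
`|g_l| ≤ H_l`. For all but `M ∑_l ∏_{l' ≠ l} (2 H_{l'} + 1)` of these tuples `g` there are no relations of degree `δ` over the
number fields of degree at most `D` at `s`. For `k = 1` there are at most `M` exceptions in the window, whatever `ξ` and `H`
are.

The counting theorem of `NearAlgebraicPoints.lean` treats almost all tuples of algebraic numbers in a box; here all points lie
in very short windows (of length smaller than any power) near a given point `1 / ξ`, and the number of the exceptions saves
the full length of one side of the window.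

Proof. Near `0` the functions `∫ ds / √f_i`, `∫ (θ_i + s) ds / √f_i`, `f_i(s) = 4 (θ_i + s) ^ 3 - g₂ (θ_i + s) - g₃`, and
`log(1 + s / c_j)` are solutions of regular systems of G-functions over a number field. The general theorem over all
number fields of bounded degree (`Pool/Agent/NH25/UF`) shows that at all but few points all relations are values of
functional relations with constants. The functions, together with `log s`, are algebraically independent over `ℂ(s)`
(`Pool/Agent/NH25/EL`). Near the point with the logarithm `u_i`, `℘(u_i) = θ_i`, the elliptic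
logarithm is `u_i + ∫ ds / √f_i` (`Pool/Agent/NH19/EL`, by helper19); all other branches follow from
`℘(p) = ℘(p')` if and only if `p ± p' ∈ Λ`.
-/

set_option autoImplicit false

open Filter
open scoped PeriodPair

namespace Pool.Agent.Results.MP_c9768e_nt.WindowsNearPoints

/-- The Weierstrass zeta function `ζ(z) = ∑ (1/(z-l) + 1/l + z/l²)`, the sum over the lattice (the summand of `l = 0` is
`1/z`, since `1/0 = 0` in Lean). -/
noncomputable def zeta (L : PeriodPair) (z : ℂ) : ℂ := ∑' l : L.lattice, (1 / (z - l) + 1 / l + z / l ^ 2)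

/-- `n` different pairs of a lattice with algebraic invariants and an algebraic number which is not a root of the cubic
polynomial, and `m` different algebraic numbers, for every one of the `k` variables -/
structure Configuration (k n m : ℕ) where
  /-- the lattices -/
  Λ : Fin k → Fin n → PeriodPair
  /-- the centres -/
  θ : Fin k → Fin n → ℂ
  /-- the shifts of the logarithms -/
  c : Fin k → Fin m → ℂ
  algebraic_g₂ : ∀ l i, IsAlgebraic ℚ (Λ l i).g₂
  algebraic_g₃ : ∀ l i, IsAlgebraic ℚ (Λ l i).g₃
  algebraic_θ : ∀ l i, IsAlgebraic ℚ (θ l i)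
  algebraic_c : ∀ l j, IsAlgebraic ℚ (c l j)
  /-- `θ` is not a root of the cubic polynomial -/
  ne : ∀ l i, 4 * θ l i ^ 3 - (Λ l i).g₂ * θ l i - (Λ l i).g₃ ≠ 0
  /-- the pairs which belong to the same variable are different -/
  injective : ∀ l, Function.Injective fun i => (θ l i, (Λ l i).g₂, (Λ l i).g₃)
  injective_c : ∀ l, Function.Injective (c l)

/-- the indices of the numbers `p_{l,i}`, `ζ(p_{l,i})` and `t_{l,j}` -/
abbrev Index (k n m : ℕ) : Type := Fin k × ((Fin n × Fin 2) ⊕ Fin m)

/-- the numbers `p_{l,i}`, `ζ(p_{l,i})` and `t_{l,j}` -/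
noncomputable def numbers {k n m : ℕ} (F : Configuration k n m) (p : Fin k → Fin n → ℂ) (t : Fin k → Fin m → ℂ)
    (v : Index k n m) : ℂ :=
  Sum.elim (fun e => (![p v.1 e.1, zeta (F.Λ v.1 e.1) (p v.1 e.1)] : Fin 2 → ℂ) e.2) (fun j => t v.1 j) v.2

/-- The numbers `c_{l,j} + s_l` are not zero, and whenever `℘(p_{l,i}) = θ_{l,i} + s_l` and `exp(t_{l,j}) = c_{l,j} + s_l`, every
polynomial `P` of degree at most `δ` over a number field `K` of degree at most `D` which vanishes at the numbers `w` and
`p_{l,i}`, `ζ(p_{l,i})`, `t_{l,j}` is zero after the substitution of the numbers `w`. -/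
def NoRelations {k n m q : ℕ} (F : Configuration k n m) (w : Fin q → ℂ) (D δ : ℕ) (s : Fin k → ℂ) : Prop :=
  (∀ l j, F.c l j + s l ≠ 0) ∧
  ∀ (p : Fin k → Fin n → ℂ) (t : Fin k → Fin m → ℂ),
    (∀ l i, p l i ∉ (F.Λ l i).lattice ∧ ℘[F.Λ l i] (p l i) = F.θ l i + s l) →
    (∀ l j, Complex.exp (t l j) = F.c l j + s l) →
    ∀ K : IntermediateField ℚ ℂ, FiniteDimensional ℚ K → Module.finrank ℚ K ≤ D →
    ∀ P : MvPolynomial (Fin q ⊕ Index k n m) K, P.totalDegree ≤ δ →
      MvPolynomial.aeval (Sum.elim w (numbers F p t)) P = 0 →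
      MvPolynomial.aeval (Sum.elim (fun i => MvPolynomial.C (w i)) MvPolynomial.X) P =
        (0 : MvPolynomial (Index k n m) ℂ)

/-- `ξ` is a root of a nonzero integral polynomial of degree at most `m` with coefficients of size at most `|ξ| ^ A` -/
def Height (m A : ℕ) (ξ : ℂ) : Prop :=
  ∃ f : Polynomial ℤ, f ≠ 0 ∧ f.natDegree ≤ m ∧ (∀ j, |(f.coeff j : ℝ)| ≤ ‖ξ‖ ^ A) ∧ Polynomial.aeval ξ f = 0

/-- the tuples `g` in the window with the half side lengths `H_l` for which there are relations at the point
`s_l = 1 / (ξ_l + g_l)` -/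
def Exceptional {k n m q : ℕ} (F : Configuration k n m) (w : Fin q → ℂ) (D δ : ℕ) (ξ : Fin k → ℂ) (H : Fin k → ℕ) :
    Set (Fin k → ℤ) :=
  {g | (∀ l, |g l| ≤ (H l : ℤ)) ∧ ¬ NoRelations F w D δ fun l => 1 / (ξ l + (g l : ℂ))}

section proof

open Pool.Agent.NH25.EL Pool.Agent.NH25.FR

variable {k n m q : ℕ}

/-- the data -/
def cfg (F : Configuration k n m) : Cfg k n m :=
  ⟨F.Λ, F.θ, F.c, F.algebraic_g₂, F.algebraic_g₃, F.algebraic_θ, F.algebraic_c, F.ne, F.injective, F.injective_c⟩

lemma noRel {F : Configuration k n m} {w : Fin q → ℂ} {D δ : ℕ} {s : Fin k → ℂ}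
    (h : NoRel (cfg F) w D δ s ∧ ∀ l j, (cfg F).c l j + s l ≠ 0) : NoRelations F w D δ s := by
  refine ⟨h.2, fun p t hp ht K hK hKD P hPd h0 => ?_⟩
  have h1 := h.1 p t hp ht K hK hKD (P.map (algebraMap K ℂ))
    ((Finset.sup_mono (MvPolynomial.support_map_subset _ _)).trans hPd) (fun e => by
      rw [MvPolynomial.coeff_map]
      exact (P.coeff e).2) (by
      rw [← MvPolynomial.aeval_eq_eval, MvPolynomial.aeval_map_algebraMap]
      exact h0)
  unfold sp at h1
  rw [MvPolynomial.aeval_map_algebraMap] at h1
  exact h1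

end proof

/-- **The theorem.** -/
theorem result (k n m q : ℕ) (F : Configuration k n m) (w : Fin q → ℂ) (hk : 1 ≤ k) (δ D μ A : ℕ) :
    ∃ M E : ℕ, ∀ (ξ : Fin k → ℂ) (H : Fin k → ℕ), (∀ l, Height μ A (ξ l)) → (∀ l, ((H l : ℝ) + 2) ^ E ≤ ‖ξ l‖) →
      (Exceptional F w D δ ξ H).ncard ≤ M * ∑ l, ∏ l' ∈ Finset.univ.erase l, (2 * H l' + 1) := by
  obtain ⟨L, i1, i2, i3, N, H, κ₂, i4, P, ρ, hρ, hH, ⟨R⟩, hrel⟩ := Pool.Agent.NH25.EL.relE (cfg F) hk w
  exact Pool.Agent.NH25.FR.win hρ hH R (fun D δ s => NoRelations F w D δ s) id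
    (fun r hr hrρ D δ s hs hP => noRel (hrel r hr hrρ D δ s hs hP)) δ D μ A

end Pool.Agent.Results.MP_c9768e_nt.WindowsNearPoints
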